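import Pool.Agent.L0h82.GT.Stm

set_option autoImplicit false

/-! # Board GT (helper82, MP_155633_al), module FIN -/

namespace Pool.Agent.L0h2.GT

open Pool.Agent.L0h82.GT

universe u

theorem tot_congr {X : Type u} {G : Subgroup (Equiv.Perm X)} {w v : ℕ → X} {n : ℕ}
    (h : ∀ k < 5, w k = v k) (ht : Tot G w n) : Tot G v n := by
  refine ⟨ht.1, fun y a b c d hy ha hb hc hd hn => ?_⟩
  rw [← h y hy, ← h a ha, ← h b hb, ← h c hc, ← h d hd]
  exact ht.2 y a b c d hy ha hb hc hd hn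

theorem sk_of_lt {i k : ℕ} (h : k < i) : sk i k = k := if_pos h

theorem sk_of_le {i k : ℕ} (h : i ≤ k) : sk i k = k + 1 := if_neg (by omega)

theorem sk_sk {i j : ℕ} (k : ℕ) (h : i ≤ j) : sk i (sk j k) = sk (j + 1) (sk i k) := by
  rcases Nat.lt_or_ge k i with h1 | h1
  · rw [sk_of_lt (by omega : k < j), sk_of_lt h1, sk_of_lt (by omega : k < j + 1)]
  · rw [sk_of_le h1]
    rcases Nat.lt_or_ge k j with h2 | h2
    · rw [sk_of_lt h2, sk_of_le h1, sk_of_lt (by omega : k + 1 < j + 1)]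
    · rw [sk_of_le h2, sk_of_le (by omega : i ≤ k + 1), sk_of_le (by omega : j + 1 ≤ k + 1)]

theorem sk_lt {i k n : ℕ} (h : k < n) : sk i k < n + 1 := by
  unfold sk
  split_ifs <;> omega

theorem sk_inj {i k l : ℕ} (h : sk i k = sk i l) : k = l := by
  unfold sk at h
  split_ifs at h <;> omega

theorem exists_code (f : ℕ → ℕ) (hf : ∀ i < 6, f i < 6) :
    ∃ c < 8 ^ 6, ∀ i < 6, dg c i = f i := by
  have h0 := hf 0 (by omega)
  have h1 := hf 1 (by omega)
  have h2 := hf 2 (by omega)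
  have h3 := hf 3 (by omega)
  have h4 := hf 4 (by omega)
  have h5 := hf 5 (by omega)
  refine ⟨f 0 + 8 * f 1 + 64 * f 2 + 512 * f 3 + 4096 * f 4 + 32768 * f 5, by norm_num; omega, ?_⟩
  intro i hi
  unfold dg
  rw [Nat.shiftRight_eq_div_pow]
  interval_cases i <;> norm_num <;> omega

theorem six {X : Type u} {G : Subgroup (Equiv.Perm X)} (h1 : K1) (hT : S_TOT.{u}) (h6 : S_SIX.{u})
    (hG : Gen G) (hno : ∀ v : ℕ → X, Set.InjOn v (Set.Iio 5) → NoC3 G v) (z : ℕ → X)
    (hz : Set.InjOn z (Set.Iio 6)) :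
    ∃ c ∈ L66, ∀ j < 6, Tot G (fun k => z (sk j k)) (dg c j) := by
  have hz5 : ∀ j < 6, ∃ n, Tot G (fun k => z (sk j k)) n := by
    intro j hj
    have hin : Set.InjOn (fun k => z (sk j k)) (Set.Iio 5) := by
      intro k hk l hl hkl
      exact sk_inj (hz (sk_lt (n := 5) hk) (sk_lt (n := 5) hl) hkl)
    obtain ⟨n, hn, -⟩ := hT X G _ hG hin (hno _ hin)
    exact ⟨n, hn⟩
  choose! f hf using hz5
  obtain ⟨c, hc, hd⟩ := exists_code f (fun i hi => (hf i hi).1)
  have hcode : ∀ j < 6, Tot G (fun k => z (sk j k)) (dg c j) := fun j hj => by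
    rw [hd j hj]
    exact hf j hj
  exact ⟨c, h1 c hc (fun i hi => (hcode i hi).1) ((h6 X G hG).2 z c hz hcode), hcode⟩

theorem seven {X : Type u} {G : Subgroup (Equiv.Perm X)} (h1 : K1) (h2 : K2) (hI : S_INV.{u})
    (hT : S_TOT.{u}) (h6 : S_SIX.{u})
    (hG : Gen G) (hno : ∀ v : ℕ → X, Set.InjOn v (Set.Iio 5) → NoC3 G v) (W : ℕ → X)
    (hW : Set.InjOn W (Set.Iio 7)) :
    ∃ c : ℕ → ℕ, (∀ i < 7, ∀ j < 6, Tot G (fun k => W (sk i (sk j k))) (dg (c i) j)) ∧
      c 6 ∈ LD ∧ ∀ e ∈ HF, Pool.Agent.L0h82.GT.cond (dg (c 6) 5) e.1 = true → inv2 (c 5) (c 6) e.1 e.2 = false := by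
  have hs : ∀ i < 7, ∃ c, c ∈ L66 ∧ ∀ j < 6, Tot G (fun k => W (sk i (sk j k))) (dg c j) := by
    intro i hi
    refine six h1 hT h6 hG hno (fun k => W (sk i k)) ?_
    intro k hk l hl hkl
    exact sk_inj (hW (sk_lt (n := 6) hk) (sk_lt (n := 6) hl) hkl)
  choose! c hc hd using hs
  have hcomp : ∀ i j, i ≤ j → j < 6 → dg (c i) j = dg (c (j + 1)) i := by
    intro i j hij hj
    have t1 := hd i (by omega) j hj
    have t2 := hd (j + 1) (by omega) i (by omega)
    have e : (fun k => W (sk i (sk j k))) = fun k => W (sk (j + 1) (sk i k)) := by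
      funext k
      rw [sk_sk k hij]
    rw [e] at t1
    exact (hI X G _).2.2 _ _ t1 t2
  refine ⟨c, hd, ?_⟩
  exact h2 (c 6) (hc 6 (by omega)) (c 5) (hc 5 (by omega)) (hcomp 5 5 (by omega) (by omega))
    (c 4) (hc 4 (by omega)) (hcomp 4 4 (by omega) (by omega)) (hcomp 4 5 (by omega) (by omega))
    (c 3) (hc 3 (by omega)) (hcomp 3 3 (by omega) (by omega)) (hcomp 3 4 (by omega) (by omega))
      (hcomp 3 5 (by omega) (by omega))
    (c 2) (hc 2 (by omega)) (hcomp 2 2 (by omega) (by omega)) (hcomp 2 3 (by omega) (by omega))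
      (hcomp 2 4 (by omega) (by omega)) (hcomp 2 5 (by omega) (by omega))
    (c 1) (hc 1 (by omega)) (hcomp 1 1 (by omega) (by omega)) (hcomp 1 2 (by omega) (by omega))
      (hcomp 1 3 (by omega) (by omega)) (hcomp 1 4 (by omega) (by omega))
      (hcomp 1 5 (by omega) (by omega))
    (c 0) (hc 0 (by omega)) (hcomp 0 0 (by omega) (by omega)) (hcomp 0 1 (by omega) (by omega))
      (hcomp 0 2 (by omega) (by omega)) (hcomp 0 3 (by omega) (by omega))
      (hcomp 0 4 (by omega) (by omega)) (hcomp 0 5 (by omega) (by omega))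

theorem HF_facts : ∀ e ∈ HF, dg e.1 5 = 5 ∧ (∀ i < 5, dg e.1 i < 5) ∧
    ∀ j < 5, ∃ i < 5, dg e.1 i = j := by
  decide +kernel

theorem t_FIN (h1 : K1) (h2 : K2) (h3 : K3) (hI : S_INV.{u}) (hT : S_TOT.{u}) (_hJ : S_JOR.{u})
    (hH : S_HOM.{u}) (h6 : S_SIX.{u}) : S_FIN.{u} := by
  classical
  rintro X G hG ⟨s, hs⟩ w hw hno
  have hno' : ∀ v : ℕ → X, Set.InjOn v (Set.Iio 5) → NoC3 G v :=
    fun v hv => hH X G w v hG hw hv hno
  obtain ⟨n, hn, e, he, hce, g, hg, hgw⟩ := hT X G w hG hw hno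
  obtain ⟨e5, elt, esur⟩ := HF_facts e he
  obtain ⟨p, hp⟩ : ∃ p, ∀ i < 5, w i ≠ p := by
    obtain ⟨p, hp1, hp2⟩ := Finset.exists_mem_notMem_of_card_lt_card
      (s := (Finset.range 5).image w) (t := s) (by
        rw [hs]
        exact lt_of_le_of_lt Finset.card_image_le (by simp))
    exact ⟨p, fun i hi h => hp2 (Finset.mem_image.2 ⟨i, Finset.mem_range.2 hi, h⟩)⟩
  obtain ⟨q, hq, hpq, hgq⟩ : ∃ q, (∀ i < 5, w i ≠ q) ∧ p ≠ q ∧ (g p = p ∨ g p = q) := by
    by_cases hgp : g p = p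
    · obtain ⟨q, hq1, hq2⟩ := Finset.exists_mem_notMem_of_card_lt_card
        (s := insert p ((Finset.range 5).image w)) (t := s) (by
          rw [hs]
          have a1 := Finset.card_insert_le p ((Finset.range 5).image w)
          have a2 := Finset.card_image_le (s := Finset.range 5) (f := w)
          rw [Finset.card_range] at a2
          omega)
      refine ⟨q, fun i hi h => hq2 (Finset.mem_insert_of_mem
        (Finset.mem_image.2 ⟨i, Finset.mem_range.2 hi, h⟩)), ?_, Or.inl hgp⟩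
      rintro rfl
      exact hq2 (Finset.mem_insert_self _ _)
    · refine ⟨g p, ?_, fun h => hgp h.symm, Or.inr rfl⟩
      intro j hj h
      obtain ⟨i, hi, hij⟩ := esur j hj
      have h4 := hgw i hi
      rw [hij, h] at h4
      exact hp i hi (g.injective h4)
  obtain ⟨W, hW⟩ : ∃ W : ℕ → X, ∀ i, W i = if i < 5 then w i else if i = 5 then p else q :=
    ⟨_, fun _ => rfl⟩
  have hWw : ∀ k < 5, W k = w k := fun k hk => by rw [hW, if_pos hk]
  have hW5 : W 5 = p := by rw [hW, if_neg (by omega), if_pos rfl]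
  have hW6 : W 6 = q := by rw [hW, if_neg (by omega), if_neg (by omega)]
  have hWinj : Set.InjOn W (Set.Iio 7) := by
    have key : ∀ i j : ℕ, i < j → j < 7 → W i ≠ W j := by
      intro i j hij hj
      rcases (by omega : j < 5 ∨ j = 5 ∨ j = 6) with h | rfl | rfl
      · rw [hWw i (by omega), hWw j h]
        intro h'
        have := hw (Set.mem_Iio.2 (by omega : i < 5)) (Set.mem_Iio.2 h) h'
        omega
      · rw [hWw i (by omega), hW5]
        exact hp i (by omega)
      · rw [hW6]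
        rcases (by omega : i < 5 ∨ i = 5) with h | rfl
        · rw [hWw i h]
          exact hq i h
        · rw [hW5]
          exact hpq
    intro i hi j hj hij
    rcases Nat.lt_trichotomy i j with h | h | h
    · exact absurd hij (key i j h hj)
    · exact h
    · exact absurd hij.symm (key j i h hi)
  obtain ⟨c, hd, hLD, hfalse⟩ := seven h1 h2 hI hT h6 hG hno' W hWinj
  have hcn : dg (c 6) 5 = n := by
    have t1 : Tot G w (dg (c 6) 5) := by
      refine tot_congr (fun k hk => ?_) (hd 6 (by omega) 5 (by omega))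
      show W (sk 6 (sk 5 k)) = w k
      rw [sk_of_lt hk, sk_of_lt (by omega), hWw k hk]
    exact (hI X G w).2.2 _ _ t1 hn
  have hc2 : Pool.Agent.L0h82.GT.cond (dg (c 6) 5) e.1 = true := by
    rw [hcn]
    exact hce
  have hmem : e ∈ HL.flatten ++ HF := List.mem_append_right _ he
  rcases hgq with hgp | hgp
  · have a1 := (h6 X G hG).1 (fun k => W (sk 6 k)) (fun k => W (sk 6 k)) (c 6) (c 6) g hg e hmem
      (by
        intro i hi
        show g (W (sk 6 i)) = W (sk 6 (dg e.1 i))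
        rw [sk_of_lt hi]
        rcases (by omega : i < 5 ∨ i = 5) with h | rfl
        · have h4 := elt i h
          rw [sk_of_lt (by omega), hWw i h, hWw _ h4, hgw i h]
        · rw [e5, sk_of_lt (by omega), hW5, hgp])
      (fun i hi => hd 6 (by omega) i hi) (fun i hi => hd 6 (by omega) i hi)
    rw [h3 (c 6) hLD e he hc2] at a1
    exact Bool.false_ne_true a1
  · have a1 := (h6 X G hG).1 (fun k => W (sk 6 k)) (fun k => W (sk 5 k)) (c 5) (c 6) g hg e hmem
      (by
        intro i hi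
        show g (W (sk 6 i)) = W (sk 5 (dg e.1 i))
        rw [sk_of_lt hi]
        rcases (by omega : i < 5 ∨ i = 5) with h | rfl
        · have h4 := elt i h
          rw [sk_of_lt (by omega), hWw i h, hWw _ h4, hgw i h]
        · rw [e5, sk_of_le (by omega), hW5, hW6, hgp])
      (fun i hi => hd 6 (by omega) i hi) (fun i hi => hd 5 (by omega) i hi)
    rw [hfalse e he hc2] at a1
    exact Bool.false_ne_true a1

end Pool.Agent.L0h2.GT
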